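import Mathlib

set_option autoImplicit false
open MeasureTheory Set Filter Topology
open scoped ENNReal NNReal

namespace Pool.Agent.R284.RC

/-- Euclidean space `R^n`. -/
abbrev E (n : ℕ) := EuclideanSpace ℝ (Fin n)

/-- Riesz potential (exponent `q > 0`), value in `[0,∞]`. -/
noncomputable def Pot {n : ℕ} (q : ℝ) (μ : Measure (E n)) (x : E n) : ℝ≥0∞ :=
  ∫⁻ y, (edist x y) ^ (-q) ∂μ

/-- Riesz energy (exponent `q > 0`), value in `[0,∞]`. -/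
noncomputable def Iq {n : ℕ} (q : ℝ) (μ : Measure (E n)) : ℝ≥0∞ :=
  ∫⁻ x, Pot q μ x ∂μ

/-- Real kernel: `log (1/|x-y|)` for `p = 0`, `|x-y|^(-p)` otherwise (junk value `0` for `x = y`). -/
noncomputable def kr {n : ℕ} (p : ℝ) (x y : E n) : ℝ :=
  if p = 0 then -Real.log (dist x y) else (dist x y) ^ (-p)

/-- Absolute value of the kernel in `[0,∞]`, with the value `∞` on the diagonal. -/
noncomputable def ke {n : ℕ} (p : ℝ) (x y : E n) : ℝ≥0∞ :=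
  if x = y then ⊤ else ENNReal.ofReal |kr p x y|

/-- Real potential. -/
noncomputable def U {n : ℕ} (p : ℝ) (σ : Measure (E n)) (x : E n) : ℝ := ∫ y, kr p x y ∂σ

/-- Real mutual energy `∫ U^τ dσ`. -/
noncomputable def En {n : ℕ} (p : ℝ) (σ τ : Measure (E n)) : ℝ := ∫ x, U p τ x ∂σ

/-- Finite (absolute) mutual energy. -/
def FinEn {n : ℕ} (p : ℝ) (σ τ : Measure (E n)) : Prop := ∫⁻ x, ∫⁻ y, ke p x y ∂τ ∂σ < ⊤

/-- Bounded Riesz `q`-potential. -/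
def BP {n : ℕ} (q : ℝ) (μ : Measure (E n)) : Prop := ∃ B : ℝ≥0, ∀ x, Pot q μ x ≤ B

/-- Bounded support. -/
def BS {n : ℕ} (μ : Measure (E n)) : Prop := ∃ R : ℝ, μ (Metric.closedBall 0 R)ᶜ = 0

/-- Probability measures with bounded support and bounded density with respect to `μ`. -/
def Cls {n : ℕ} (μ : Measure (E n)) : Set (Measure (E n)) :=
  {σ | IsProbabilityMeasure σ ∧ (∃ c : ℝ≥0, σ ≤ c • μ) ∧ BS σ}

/-- `v` is a lower bound of the `p`-energies of the class of `μ`. -/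
def LowV {n : ℕ} (p : ℝ) (μ : Measure (E n)) (v : ℝ) : Prop := ∀ σ ∈ Cls μ, v ≤ En p σ σ

/-- `S` is a lower bound of the `p`-energies of the members of the class of `μ` living on `D`. -/
def LB {n : ℕ} (p : ℝ) (μ : Measure (E n)) (D : Set (E n)) (S : ℝ) : Prop :=
  ∀ τ ∈ Cls μ, τ Dᶜ = 0 → S ≤ En p τ τ

/-- `1 / cap_p` as a function of the minimal energy. -/
noncomputable def Phi (p v : ℝ) : ℝ := if p = 0 then Real.exp v else v ^ (1 / p)

/-- The normalised value of the energy: `Phi p (v0 p) = 1`. -/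
noncomputable def v0 (p : ℝ) : ℝ := if p = 0 then 0 else 1

/-- The bound `Phi(V(ρ)) ≤ M * I_q(ρ)^(1/q)` for all probability measures `ρ` with bounded
`q`-potential. -/
def MB (n : ℕ) (p q M : ℝ) : Prop :=
  ∀ ρ : Measure (E n), IsProbabilityMeasure ρ → BP q ρ → ∀ v : ℝ, (p ≠ 0 → 0 < v) →
    LowV p ρ v → Phi p v ≤ M * (Iq q ρ).toReal ^ (1 / q)

/-- Optimality inequalities. -/
def OptC {n : ℕ} (p : ℝ) (μ : Measure (E n)) (V C1 C2 γ : ℝ) : Prop :=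
  1 ≤ C1 ∧ 0 < C2 ∧ 1 < γ ∧
  (∀ D : Set (E n), MeasurableSet D → (μ D).toReal ≤ 1 / 2 → ∀ δ : ℝ, C1 * (μ D).toReal < δ →
    ∃ σ ∈ Cls μ, σ D = 0 ∧ En p σ σ ≤ V + δ) ∧
  (∀ D : Set (E n), MeasurableSet D → ∀ S : ℝ, 1 ≤ S → LB p μ D S →
    (μ D).toReal ≤ C2 * S ^ (-γ))

/-- Equilibrium-type data for a probability measure. -/
def NData {n : ℕ} (p q : ℝ) (ν : Measure (E n)) (V : ℝ) : Prop :=
  IsProbabilityMeasure ν ∧ BS ν ∧ Iq q ν < ⊤ ∧ (∀ᵐ x ∂ν, Pot q ν x ≤ Iq q ν) ∧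
  (∀ x, Pot q ν x ≤ ENNReal.ofReal (2 ^ q) * Iq q ν) ∧ LowV p ν V

/-- Riesz capacity, `s > 0`, and logarithmic capacity, `s = 0`. -/
noncomputable def cap {n : ℕ} (s : ℝ) (K : Set (E n)) : ℝ :=
  if s = 0 then
    (if (⨅ (μ : Measure (E n)) (_ : μ Set.univ = 1 ∧ μ Kᶜ = 0),
          ∫⁻ x, ∫⁻ y, (if x = y then (⊤ : ENNReal) else
            ENNReal.ofReal (Real.log ((Metric.diam K + 1) / dist x y))) ∂μ ∂μ) = ⊤
      then 0
      else (Metric.diam K + 1) * Real.exp (-((⨅ (μ : Measure (E n))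
          (_ : μ Set.univ = 1 ∧ μ Kᶜ = 0),
          ∫⁻ x, ∫⁻ y, (if x = y then (⊤ : ENNReal) else
            ENNReal.ofReal (Real.log ((Metric.diam K + 1) / dist x y))) ∂μ ∂μ).toReal)))
  else ((⨅ (μ : Measure (E n)) (_ : μ Set.univ = 1 ∧ μ Kᶜ = 0),
          ∫⁻ x, ∫⁻ y, (edist x y) ^ (-s) ∂μ ∂μ) ^ (-1 / s)).toReal

end Pool.Agent.R284.RC
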