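import Pool.Agent.R284.RC.Stm

/-! RC-EXP: bilinear expansion of the energy. -/

set_option autoImplicit false
open MeasureTheory Set Filter Topology
open scoped ENNReal NNReal

namespace Pool.Agent.R284.RC.EXP

variable {n : ℕ}

lemma kr_comm (p : ℝ) (x y : E n) : kr p x y = kr p y x := by
  unfold kr
  rw [dist_comm]

lemma ke_comm (p : ℝ) (x y : E n) : ke p x y = ke p y x := by
  unfold ke
  rw [kr_comm]
  simp only [eq_comm]

lemma kr_meas (p : ℝ) : Measurable (fun z : E n × E n => kr p z.1 z.2) := by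
  unfold kr
  by_cases h : p = 0
  · simp only [h, if_true]
    exact (Real.measurable_log.comp (measurable_fst.dist measurable_snd)).neg
  · simp only [h, if_false]
    exact (measurable_fst.dist measurable_snd).pow_const _

lemma ke_meas (p : ℝ) : Measurable (fun z : E n × E n => ke p z.1 z.2) := by
  unfold ke
  refine Measurable.ite (measurableSet_eq_fun measurable_fst measurable_snd) measurable_const ?_
  exact ENNReal.measurable_ofReal.comp (continuous_abs.measurable.comp (kr_meas p))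

lemma enorm_le (p : ℝ) (x y : E n) : ‖kr p x y‖ₑ ≤ ke p x y := by
  unfold ke
  split_ifs
  · exact le_top
  · rw [Real.enorm_eq_ofReal_abs]

lemma finEn_iff (p : ℝ) (σ τ : Measure (E n)) [SFinite σ] [SFinite τ] :
    FinEn p σ τ ↔ ∫⁻ z, ke p z.1 z.2 ∂(σ.prod τ) < ⊤ := by
  unfold FinEn
  rw [lintegral_prod _ (ke_meas p).aemeasurable]

lemma intg (p : ℝ) (σ τ : Measure (E n)) [SFinite σ] [SFinite τ] (h : FinEn p σ τ) :
    Integrable (fun z : E n × E n => kr p z.1 z.2) (σ.prod τ) := by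
  rw [finEn_iff] at h
  have h2 : ∫⁻ z, ‖kr p z.1 z.2‖ₑ ∂(σ.prod τ) ≤ ∫⁻ z, ke p z.1 z.2 ∂(σ.prod τ) :=
    lintegral_mono fun z => enorm_le p z.1 z.2
  refine ⟨(kr_meas p).aestronglyMeasurable, ?_⟩
  rw [hasFiniteIntegral_iff_enorm]
  exact lt_of_le_of_lt h2 h

lemma En_eq (p : ℝ) (σ τ : Measure (E n)) [SFinite σ] [SFinite τ] (h : FinEn p σ τ) :
    En p σ τ = ∫ z, kr p z.1 z.2 ∂(σ.prod τ) :=
  (integral_prod _ (intg p σ τ h)).symm

lemma finEn_comm (p : ℝ) (σ τ : Measure (E n)) [SFinite σ] [SFinite τ] (h : FinEn p σ τ) :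
    FinEn p τ σ := by
  unfold FinEn at *
  rw [lintegral_lintegral_swap (ke_meas p).aemeasurable] at h
  refine lt_of_le_of_lt (le_of_eq ?_) h
  refine lintegral_congr fun x => lintegral_congr fun y => ?_
  exact ke_comm p x y

lemma En_comm (p : ℝ) (σ τ : Measure (E n)) [SFinite σ] [SFinite τ] (h : FinEn p σ τ) :
    En p σ τ = En p τ σ := by
  unfold En U
  rw [integral_integral_swap (intg p σ τ h)]
  refine integral_congr_ae (ae_of_all _ fun x => ?_)
  refine integral_congr_ae (ae_of_all _ fun y => ?_)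
  exact kr_comm p y x

instance instFin (t : ℝ) (σ τ : Measure (E n)) [IsFiniteMeasure σ] [IsFiniteMeasure τ] :
    IsFiniteMeasure (mixM t σ τ) := by
  unfold mixM
  have := σ.smul_finite (c := ENNReal.ofReal (1 - t)) ENNReal.ofReal_ne_top
  have := τ.smul_finite (c := ENNReal.ofReal t) ENNReal.ofReal_ne_top
  infer_instance

lemma prod_mix (t : ℝ) (ρ σ τ : Measure (E n)) [IsFiniteMeasure ρ] [IsFiniteMeasure σ]
    [IsFiniteMeasure τ] : ρ.prod (mixM t σ τ) =
      ENNReal.ofReal (1 - t) • ρ.prod σ + ENNReal.ofReal t • ρ.prod τ := by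
  unfold mixM
  have := σ.smul_finite (c := ENNReal.ofReal (1 - t)) ENNReal.ofReal_ne_top
  have := τ.smul_finite (c := ENNReal.ofReal t) ENNReal.ofReal_ne_top
  rw [Measure.prod_add, Measure.prod_smul_right, Measure.prod_smul_right]

lemma finEn_mix (p t : ℝ) (ρ σ τ : Measure (E n)) [IsFiniteMeasure ρ] [IsFiniteMeasure σ]
    [IsFiniteMeasure τ] (h1 : FinEn p ρ σ) (h2 : FinEn p ρ τ) : FinEn p ρ (mixM t σ τ) := by
  rw [finEn_iff] at *
  rw [prod_mix, lintegral_add_measure, lintegral_smul_measure, lintegral_smul_measure]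
  exact ENNReal.add_lt_top.2 ⟨ENNReal.mul_lt_top ENNReal.ofReal_lt_top h1,
    ENNReal.mul_lt_top ENNReal.ofReal_lt_top h2⟩

lemma En_mix (p t : ℝ) (ht : t ∈ Icc (0 : ℝ) 1) (ρ σ τ : Measure (E n)) [IsFiniteMeasure ρ]
    [IsFiniteMeasure σ] [IsFiniteMeasure τ] (h1 : FinEn p ρ σ) (h2 : FinEn p ρ τ) :
    En p ρ (mixM t σ τ) = (1 - t) * En p ρ σ + t * En p ρ τ := by
  rw [En_eq p ρ _ (finEn_mix p t ρ σ τ h1 h2), En_eq p ρ σ h1, En_eq p ρ τ h2, prod_mix,
    integral_add_measure ((intg p ρ σ h1).smul_measure ENNReal.ofReal_ne_top)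
      ((intg p ρ τ h2).smul_measure ENNReal.ofReal_ne_top),
    integral_smul_measure, integral_smul_measure, ENNReal.toReal_ofReal (by linarith [ht.2]),
    ENNReal.toReal_ofReal ht.1]
  rfl

/-- piece RC-EXP -/
theorem exp_proof : S_exp := by
  intro n p σ τ hσ hτ h1 h2 h3
  have h4 : FinEn p τ σ := finEn_comm p σ τ h3
  refine ⟨En_comm p σ τ h3, fun t ht => ⟨?_, ?_, ?_⟩⟩
  · refine finEn_mix p t _ σ τ (finEn_comm p _ _ ?_) (finEn_comm p _ _ ?_)
    · exact finEn_mix p t σ σ τ h1 h3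
    · exact finEn_mix p t τ σ τ h4 h2
  · have h5 : FinEn p σ (mixM t σ τ) := finEn_mix p t σ σ τ h1 h3
    have h6 : FinEn p τ (mixM t σ τ) := finEn_mix p t τ σ τ h4 h2
    rw [En_mix p t ht (mixM t σ τ) σ τ (finEn_comm p _ _ h5) (finEn_comm p _ _ h6),
      ← En_comm p σ _ h5, ← En_comm p τ _ h6, En_mix p t ht σ σ τ h1 h3,
      En_mix p t ht τ σ τ h4 h2, ← En_comm p σ τ h3]
    ring
  · intro ρ hρ h5 h6
    exact ⟨finEn_mix p t ρ σ τ h5 h6, En_mix p t ht ρ σ τ h5 h6⟩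

end Pool.Agent.R284.RC.EXP
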