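import Pool.Agent.R284.RC.Stm
import Pool.Agent.Helper88.RB.P_lsc_energy

set_option autoImplicit false
open MeasureTheory Set Filter Topology
open scoped ENNReal NNReal

namespace Pool.Agent.R284.RC

namespace LimAaux

open Pool.Agent.Helper88.RB (lscTr lscTr_coe lscB lsc_energy)

lemma lsc_pot {X : Type} [TopologicalSpace X] [MeasurableSpace X] [OpensMeasurableSpace X]
    (k : X → ℝ≥0∞) (hk : Continuous k) :
    LowerSemicontinuous (fun ν : ProbabilityMeasure X => ∫⁻ p, k p ∂(ν : Measure X)) := by
  have hsup : ∀ p, k p = ⨆ n : ℕ, min (k p) (n : ℝ≥0∞) := by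
    intro p
    have h1 : (k p) ⊓ (⨆ n : ℕ, (n : ℝ≥0∞)) = ⨆ n : ℕ, (k p) ⊓ (n : ℝ≥0∞) := inf_iSup_eq _ _
    rw [ENNReal.iSup_natCast, inf_top_eq] at h1
    exact h1
  have hint : ∀ ν : ProbabilityMeasure X, ∫⁻ p, k p ∂(ν : Measure X) =
      ⨆ n : ℕ, ∫⁻ p, min (k p) (n : ℝ≥0∞) ∂(ν : Measure X) := by
    intro ν
    rw [← lintegral_iSup]
    · exact lintegral_congr hsup
    · intro n
      exact (hk.min continuous_const).measurable
    · intro m n hmn p
      exact min_le_min le_rfl (by exact_mod_cast hmn)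
  simp_rw [hint]
  refine lowerSemicontinuous_iSup fun n => Continuous.lowerSemicontinuous ?_
  have hc : Continuous (fun ν : ProbabilityMeasure X =>
      (ν.toFiniteMeasure.testAgainstNN (lscB hk n) : ℝ≥0∞)) :=
    ENNReal.continuous_coe.comp (ProbabilityMeasure.continuous_testAgainstNN_eval (lscB hk n))
  refine hc.congr fun ν => ?_
  rw [FiniteMeasure.testAgainstNN_coe_eq]
  exact lintegral_congr fun p => lscTr_coe k n p

end LimAaux

open LimAaux in
/-- weak limit of a tight sequence with bounded potentials -/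
theorem lima_proof : S_limA := by
  intro n q hq ν hν B hB ht c hc
  let P : ℕ → ProbabilityMeasure (E n) := fun j => ⟨ν j, hν j⟩
  have hcomp : IsCompact (closure (range P)) := by
    apply isCompact_closure_of_isTightMeasureSet
    rw [isTightMeasureSet_iff_exists_isCompact_measure_compl_le]
    intro ε hε
    obtain ⟨R, hR⟩ := ht (min ε 1).toReal
      (ENNReal.toReal_pos (lt_min hε one_pos).ne' (ne_top_of_le_ne_top ENNReal.one_ne_top
        (min_le_right _ _)))
    refine ⟨Metric.closedBall 0 R, isCompact_closedBall 0 R, ?_⟩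
    rintro _ ⟨μ, ⟨j, rfl⟩, rfl⟩
    refine (hR j).trans ?_
    rw [ENNReal.ofReal_toReal (ne_top_of_le_ne_top ENNReal.one_ne_top (min_le_right _ _))]
    exact min_le_left _ _
  obtain ⟨μ, _, φ, hφ, hlim⟩ := hcomp.tendsto_subseq (x := P)
    (fun j => subset_closure (mem_range_self j))
  refine ⟨(μ : Measure (E n)), φ, inferInstance, hφ, ?_, ?_, ?_⟩
  · intro f
    exact (ProbabilityMeasure.tendsto_iff_forall_integral_tendsto.1 hlim) f
  · intro x
    have hk : Continuous (fun y : E n => (edist x y) ^ (-q)) :=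
      ENNReal.continuous_rpow_const.comp (continuous_const.edist continuous_id)
    have hl := lsc_pot _ hk
    by_contra hcon
    rw [not_le] at hcon
    have h1 := hlim.eventually (hl μ _ hcon)
    obtain ⟨j, hj⟩ := h1.exists
    exact absurd (hB (φ j) x) (not_le.2 hj)
  · have hk : Continuous (fun p : E n × E n => (edist p.1 p.2) ^ (-q)) :=
      ENNReal.continuous_rpow_const.comp (continuous_fst.edist continuous_snd)
    have hl := Pool.Agent.Helper88.RB.lsc_energy _ hk
    have hprod : ∀ σ : ProbabilityMeasure (E n), Iq q (σ : Measure (E n)) =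
        ∫⁻ p, (edist p.1 p.2) ^ (-q) ∂((σ : Measure (E n)).prod (σ : Measure (E n))) := by
      intro σ
      rw [lintegral_prod _ hk.measurable.aemeasurable]
      rfl
    refine le_of_forall_gt (fun c' hc' => ?_)
    obtain ⟨c'', h1, h2⟩ := exists_between hc'
    refine lt_of_le_of_lt ?_ h2
    by_contra hcon
    rw [not_le, hprod μ] at hcon
    have h3 := hlim.eventually (hl μ _ hcon)
    have h4 := hφ.tendsto_atTop.eventually (hc c'' h1)
    obtain ⟨j, hj3, hj4⟩ := (h3.and h4).exists
    have h5 := hprod (P (φ j))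
    have h6 : c'' < Iq q (ν (φ j)) := lt_of_lt_of_eq hj3 h5.symm
    exact absurd hj4 (not_le.2 h6)

end Pool.Agent.R284.RC
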