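import Pool.Agent.R284.RC.Defs

set_option autoImplicit false
open MeasureTheory Set Filter Topology
open scoped ENNReal NNReal

namespace Pool.Agent.R284.RC

/-- mixture -/
noncomputable def mixM {n : ℕ} (t : ℝ) (σ τ : Measure (E n)) : Measure (E n) :=
  ENNReal.ofReal (1 - t) • σ + ENNReal.ofReal t • τ

/-- normalised restriction -/
noncomputable def nr {n : ℕ} (μ : Measure (E n)) (D : Set (E n)) : Measure (E n) :=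
  (μ D)⁻¹ • μ.restrict D

/-- RC-INT -/
def S_int : Prop := ∀ (n : ℕ) (p q : ℝ), 0 ≤ p → p < q → ∀ σ τ : Measure (E n),
  IsFiniteMeasure σ → IsFiniteMeasure τ → BP q τ → BS σ → BS τ →
  Integrable (fun z : E n × E n => kr p z.1 z.2) (σ.prod τ) ∧
  (∀ x, Integrable (fun y => kr p x y) τ) ∧ FinEn p σ τ

/-- RC-CONT -/
def S_cont : Prop := ∀ (n : ℕ) (p q : ℝ), 0 ≤ p → p < q → ∀ τ : Measure (E n),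
  IsFiniteMeasure τ → BP q τ → BS τ → Continuous (U p τ)

/-- RC-CLS: the class of `μ`. -/
def S_cls : Prop := ∀ (n : ℕ) (q : ℝ), ∀ μ : Measure (E n), IsFiniteMeasure μ →
  (∀ σ ∈ Cls μ, ∀ τ ∈ Cls μ, ∀ t ∈ Icc (0 : ℝ) 1, mixM t σ τ ∈ Cls μ) ∧
  (BP q μ → ∀ σ ∈ Cls μ, BP q σ) ∧
  (∀ σ ∈ Cls μ, ∀ D, MeasurableSet D → σ D ≠ 0 → nr σ D ∈ Cls μ ∧ nr σ D Dᶜ = 0) ∧
  (∀ D, MeasurableSet D → μ D ≠ 0 → (∀ σ, σ ∈ Cls (nr μ D) ↔ (σ ∈ Cls μ ∧ σ Dᶜ = 0))) ∧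
  (∀ D, MeasurableSet D → μ D ≠ 0 → IsProbabilityMeasure (nr μ D) ∧ (BP q μ → BP q (nr μ D)) ∧
    Iq q (nr μ D) ≤ (μ D)⁻¹ * (μ D)⁻¹ * Iq q μ)

/-- RC-EXP: bilinear expansion. -/
def S_exp : Prop := ∀ (n : ℕ) (p : ℝ), ∀ σ τ : Measure (E n), IsProbabilityMeasure σ →
  IsProbabilityMeasure τ → FinEn p σ σ → FinEn p τ τ → FinEn p σ τ →
  En p σ τ = En p τ σ ∧ ∀ t ∈ Icc (0 : ℝ) 1,
    FinEn p (mixM t σ τ) (mixM t σ τ) ∧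
    En p (mixM t σ τ) (mixM t σ τ) =
      (1 - t) ^ 2 * En p σ σ + 2 * t * (1 - t) * En p σ τ + t ^ 2 * En p τ τ ∧
    ∀ ρ : Measure (E n), IsProbabilityMeasure ρ → FinEn p ρ σ → FinEn p ρ τ →
      FinEn p ρ (mixM t σ τ) ∧ En p ρ (mixM t σ τ) = (1 - t) * En p ρ σ + t * En p ρ τ

/-- RC-PDR: positivity of the Riesz kernel. -/
def S_pdR : Prop := ∀ (n : ℕ) (p : ℝ), 0 < p → ∀ σ τ : Measure (E n), IsProbabilityMeasure σ →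
  IsProbabilityMeasure τ → BS σ → BS τ → FinEn p σ σ → FinEn p τ τ →
  FinEn p σ τ ∧ 2 * En p σ τ ≤ En p σ σ + En p τ τ

/-- RC-PDL: positivity of the logarithmic kernel for measures of equal mass. -/
def S_pdL : Prop := ∀ (n : ℕ), ∀ σ τ : Measure (E n), IsProbabilityMeasure σ →
  IsProbabilityMeasure τ → BS σ → BS τ → FinEn 0 σ σ → FinEn 0 τ τ →
  FinEn 0 σ τ ∧ 2 * En 0 σ τ ≤ En 0 σ σ + En 0 τ τ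

/-- RC-GAIN -/
def S_gain : Prop := ∀ (n : ℕ) (p q : ℝ), 0 ≤ p → p < q → ∀ μ : Measure (E n),
  IsFiniteMeasure μ → BP q μ → ∀ V : ℝ, LowV p μ V → ∀ σ ∈ Cls μ, ∀ D, MeasurableSet D →
  ∀ δ η : ℝ, 0 < δ → 4 * δ ≤ η → En p σ σ ≤ V + δ → (∀ x ∈ D, U p σ x ≤ V - η) →
  LB p μ D (V + η ^ 2 / (4 * δ))

/-- RC-MASS -/
def S_mass : Prop := ∀ (n : ℕ) (p q : ℝ), 0 ≤ p → p < q → ∀ μ : Measure (E n),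
  IsFiniteMeasure μ → BP q μ → ∀ V : ℝ, 0 ≤ V → LowV p μ V → ∀ σ ∈ Cls μ,
  ∀ D T : Set (E n), MeasurableSet D → MeasurableSet T → ∀ e S L : ℝ, 0 ≤ e → 0 ≤ S → 0 ≤ L →
  En p σ σ ≤ V + e → LB p μ D S → σ Tᶜ = 0 → (∀ x ∈ T, ∀ y ∈ T, -L ≤ kr p x y) →
  (σ D).toReal ^ 2 * S ≤ e + 2 * (σ D).toReal * (V + L)

/-- RC-ITER: the De Giorgi iteration. -/
def S_iter : Prop := ∀ (n : ℕ) (p q : ℝ), 0 ≤ p → p < q → ∀ μ : Measure (E n),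
  IsFiniteMeasure μ → BP q μ → ∀ V : ℝ, 0 ≤ V → LowV p μ V →
  ∀ C1 C2 γ : ℝ, OptC p μ V C1 C2 γ →
  ∀ η G P S0 L e0 : ℝ, 0 < η → 0 ≤ G → 0 ≤ P → 1 ≤ S0 → 0 ≤ L →
  ∀ (D : ℕ → Set (E n)) (T : Set (E n)), (∀ j, MeasurableSet (D j)) → Antitone D →
  MeasurableSet T → μ Tᶜ = 0 →
  (∀ (i : ℕ), ∀ x ∈ D (i + 2), ∀ y, y ∉ D (i + 1) → y ∈ D i →
    kr p x y ≤ G * (2 : ℝ) ^ (P * (i : ℝ))) →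
  (∀ (j : ℕ), ∀ x ∈ T, ∀ y ∈ T, x ∉ D j → y ∉ D j → -L ≤ kr p x y) →
  LB p μ (D 0) S0 →
  (∀ (j : ℕ), ∀ σ ∈ Cls μ, σ (D j) = 0 → En p σ σ ≤ V + e0 → ∀ x ∈ D 1,
    ∫ y in (D 0)ᶜ, kr p x y ∂σ ≤ V - 2 * η) →
  2 * G * (2 * (V + L) + Real.sqrt (2 * C1 * C2)) ≤ η * S0 →
  8 * C1 * C2 * (2 : ℝ) ^ (P + 1) ≤ η ^ 2 * S0 ^ (γ - 1) →
  8 * C1 * C2 * S0 ^ (-γ) ≤ η → 2 * C2 * S0 ^ (-γ) ≤ 1 → 2 * C1 * C2 * S0 ^ (-γ) ≤ e0 →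
  μ (⋂ j, D j) = 0

/-- RC-LUSIN -/
def S_lusin : Prop := ∀ (n : ℕ) (p q : ℝ), 0 ≤ p → p < q → ∀ μ : Measure (E n),
  IsProbabilityMeasure μ → BP q μ → BS μ → ∀ V : ℝ, LowV p μ V → ∀ ε : ℝ, 0 < ε →
  ∃ F : Set (E n), IsCompact F ∧ μ Fᶜ ≤ ENNReal.ofReal ε ∧
    ∀ τ : Measure (E n), IsProbabilityMeasure τ → τ Fᶜ = 0 → FinEn p τ τ → V - ε ≤ En p τ τ

/-- RC-OPT -/
def S_opt : Prop := ∀ (n : ℕ) (p q : ℝ), 0 ≤ p → p < q → ∀ M : ℝ, 0 < M → MB n p q M →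
  ∀ μ : Measure (E n), IsProbabilityMeasure μ → BP q μ → LowV p μ (v0 p) →
  M * (Iq q μ).toReal ^ (1 / q) ≤ 1 → ∃ C1 C2 γ : ℝ, OptC p μ (v0 p) C1 C2 γ

/-- RC-SCALE -/
def S_scale : Prop := ∀ (n : ℕ) (p q : ℝ), 0 ≤ p → p < q → ∀ (ν : Measure (E n)) (V : ℝ),
  NData p q ν V → ∀ t : ℝ, 0 < t → ∀ a : E n,
  NData p q (ν.map (fun x => t • (x - a))) (if p = 0 then V - Real.log t else t ^ (-p) * V) ∧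
  Iq q (ν.map (fun x => t • (x - a))) = ENNReal.ofReal (t ^ (-q)) * Iq q ν

/-- no dichotomy -/
def Dich (n : ℕ) (p q M : ℝ) : Prop := ∀ δ : ℝ, 0 < δ → ∃ ε > (0 : ℝ), ∃ w > (0 : ℝ),
  ∃ η > (0 : ℝ), ∀ ν : Measure (E n), NData p q ν (v0 p) →
  (Iq q ν).toReal ≤ (1 + ε) * M ^ (-q) → ∀ A B : Set (E n), MeasurableSet A → MeasurableSet B →
  (∀ x ∈ A, ∀ y ∈ B, w ≤ dist x y) → ENNReal.ofReal δ ≤ ν A → ENNReal.ofReal δ ≤ ν B →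
  ENNReal.ofReal (1 - η) ≤ ν A + ν B → False

/-- tightness up to translations -/
def Tgt (n : ℕ) (p q M : ℝ) : Prop := ∀ δ : ℝ, 0 < δ → ∃ ε > (0 : ℝ), ∃ R : ℝ,
  ∀ ν : Measure (E n), NData p q ν (v0 p) → (Iq q ν).toReal ≤ (1 + ε) * M ^ (-q) →
  ∃ a : E n, ν (Metric.closedBall a R)ᶜ ≤ ENNReal.ofReal δ

/-- RC-DICH -/
def S_dich : Prop := ∀ (n : ℕ) (p q : ℝ), 0 ≤ p → p < q → ∀ M : ℝ, 0 < M → MB n p q M →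
  Dich n p q M

/-- RC-TIGHT -/
def S_tight : Prop := ∀ (n : ℕ) (p q M : ℝ), Dich n p q M → Tgt n p q M

/-- RC-SEQ -/
def S_seq : Prop := ∀ (n : ℕ) (p q : ℝ), 0 ≤ p → p < q → ∀ M : ℝ, 0 < M → Tgt n p q M →
  (∀ ε : ℝ, 0 < ε → ∃ ν : Measure (E n), NData p q ν (v0 p) ∧
    (Iq q ν).toReal ≤ (1 + ε) * M ^ (-q)) →
  ∃ ν : ℕ → Measure (E n), (∀ j, NData p q (ν j) (v0 p)) ∧
    (∀ j, (Iq q (ν j)).toReal ≤ (1 + 1 / ((j : ℝ) + 1)) * M ^ (-q)) ∧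
    ∀ δ : ℝ, 0 < δ → ∃ R : ℝ, ∀ j, ν j (Metric.closedBall 0 R)ᶜ ≤ ENNReal.ofReal δ

/-- RC-LIMA: weak limit of a tight sequence with bounded potentials. -/
def S_limA : Prop := ∀ (n : ℕ) (q : ℝ), 0 < q → ∀ ν : ℕ → Measure (E n),
  (∀ j, IsProbabilityMeasure (ν j)) → ∀ B : ℝ≥0, (∀ j x, Pot q (ν j) x ≤ B) →
  (∀ δ : ℝ, 0 < δ → ∃ R : ℝ, ∀ j, ν j (Metric.closedBall 0 R)ᶜ ≤ ENNReal.ofReal δ) →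
  ∀ c : ℝ≥0∞, (∀ c' : ℝ≥0∞, c < c' → ∀ᶠ j in atTop, Iq q (ν j) ≤ c') →
  ∃ (μ : Measure (E n)) (φ : ℕ → ℕ), IsProbabilityMeasure μ ∧ StrictMono φ ∧
    (∀ f : BoundedContinuousFunction (E n) ℝ,
      Tendsto (fun j => ∫ x, f x ∂(ν (φ j))) atTop (𝓝 (∫ x, f x ∂μ))) ∧
    (∀ x, Pot q μ x ≤ B) ∧ Iq q μ ≤ c

/-- RC-LIMB: lower bounds pass to the limit. -/
def S_limB : Prop := ∀ (n : ℕ) (p q : ℝ), 0 ≤ p → p < q → ∀ ν : ℕ → Measure (E n),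
  (∀ j, IsProbabilityMeasure (ν j)) → ∀ B : ℝ≥0, (∀ j x, Pot q (ν j) x ≤ B) →
  ∀ V : ℝ, (∀ j, LowV p (ν j) V) →
  ∀ μ : Measure (E n), IsProbabilityMeasure μ → (∀ x, Pot q μ x ≤ B) →
  (∀ f : BoundedContinuousFunction (E n) ℝ,
      Tendsto (fun j => ∫ x, f x ∂(ν j)) atTop (𝓝 (∫ x, f x ∂μ))) →
  LowV p μ V

/-- RC-INF: the optimal measure has bounded support. -/
def S_inf : Prop := ∀ (n : ℕ) (p q : ℝ), 0 ≤ p → p < q → ∀ μ : Measure (E n),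
  IsProbabilityMeasure μ → BP q μ → LowV p μ (v0 p) → ∀ C1 C2 γ : ℝ,
  OptC p μ (v0 p) C1 C2 γ → BS μ

/-- RC-NU: the limit equilibrium measure. -/
def S_nu : Prop := ∀ (n : ℕ) (p q : ℝ), 0 ≤ p → p < q → ∀ μ : Measure (E n),
  IsProbabilityMeasure μ → BP q μ → BS μ → ∀ V : ℝ, LowV p μ V →
  (∀ δ : ℝ, 0 < δ → ∃ σ ∈ Cls μ, En p σ σ ≤ V + δ) →
  ∃ ν : Measure (E n), IsProbabilityMeasure ν ∧ BS ν ∧ FinEn p ν ν ∧ En p ν ν ≤ V ∧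
    ∀ σ ∈ Cls μ, V ≤ En p σ ν

/-- RC-AVG: averages over small balls. -/
def S_avg : Prop := ∀ (n : ℕ) (p q : ℝ), 0 ≤ p → p < q → q < n → ∀ ν : Measure (E n),
  IsProbabilityMeasure ν → BS ν → ∀ x0 : E n, ∫⁻ y, ke p x0 y ∂ν < ⊤ →
  ∃ (C : ℝ) (lam : ℝ → Measure (E n)), 0 < C ∧
    (∀ r ∈ Ioc (0 : ℝ) 1, IsProbabilityMeasure (lam r) ∧ lam r (Metric.closedBall x0 r)ᶜ = 0 ∧
      BP q (lam r) ∧ En p (lam r) (lam r) ≤ C * r ^ (-((p + q) / 2))) ∧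
    (∀ ε : ℝ, 0 < ε → ∃ r1 > (0 : ℝ), ∀ r ∈ Ioo (0 : ℝ) r1,
      FinEn p (lam r) ν ∧ En p (lam r) ν ≤ U p ν x0 + ε)

/-- The local context. -/
def Ctx {n : ℕ} (p q : ℝ) (μ ν : Measure (E n)) (V C1 C2 γ : ℝ) : Prop :=
  0 ≤ p ∧ p < q ∧ q < n ∧ IsProbabilityMeasure μ ∧ BP q μ ∧ BS μ ∧ 0 ≤ V ∧ LowV p μ V ∧
  OptC p μ V C1 C2 γ ∧ IsProbabilityMeasure ν ∧ BS ν ∧ FinEn p ν ν ∧ En p ν ν ≤ V ∧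
  ∀ σ ∈ Cls μ, V ≤ En p σ ν

def L1 {n : ℕ} (p q : ℝ) (μ : Measure (E n)) (V : ℝ) (x0 : E n) (η0 κ : ℝ) : Prop :=
  ∀ C > (0 : ℝ), ∃ r1 > (0 : ℝ), ∀ r ∈ Ioo (0 : ℝ) r1, ∀ σ ∈ Cls μ, σ (Metric.ball x0 r) = 0 →
    En p σ σ ≤ V + C * r ^ q → ∀ x ∈ Metric.closedBall x0 (κ * r), U p σ x ≤ V - 2 * η0

def L2 {n : ℕ} (p q : ℝ) (μ : Measure (E n)) (x0 : E n) (c r2 : ℝ) : Prop :=
  ∀ r ∈ Ioo (0 : ℝ) r2, LB p μ (Metric.closedBall x0 r) (c * r ^ (-q))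

def L3 {n : ℕ} (p q : ℝ) (μ : Measure (E n)) (V : ℝ) (x0 : E n) : Prop :=
  ∀ C > (0 : ℝ), ∃ C' > (0 : ℝ), ∃ r3 > (0 : ℝ), ∀ r ∈ Ioo (0 : ℝ) r3, ∀ σ ∈ Cls μ,
    En p σ σ ≤ V + C * r ^ q → (σ (Metric.closedBall x0 r)).toReal ≤ C' * r ^ q

def L4 {n : ℕ} (p q : ℝ) (μ : Measure (E n)) (V : ℝ) (x0 : E n) (η0 : ℝ) : Prop :=
  ∀ C > (0 : ℝ), ∃ r4 > (0 : ℝ), ∀ r ∈ Ioo (0 : ℝ) r4, ∀ σ ∈ Cls μ,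
    σ (Metric.ball x0 (r / 2)) = 0 → En p σ σ ≤ V + C * r ^ q →
    ∀ x ∈ Metric.ball x0 (3 * r / 4), ∫ y in (Metric.ball x0 r)ᶜ, kr p x y ∂σ ≤ V - η0

/-- RC-LOC1 -/
def S_loc1 : Prop := ∀ (n : ℕ) (p q : ℝ) (μ ν : Measure (E n)) (V C1 C2 γ : ℝ),
  Ctx p q μ ν V C1 C2 γ → ∀ x0 : E n, ∫⁻ y, ke p x0 y ∂ν < ⊤ → U p ν x0 < V →
  ∃ η0 > (0 : ℝ), ∃ κ ∈ Ioo (0 : ℝ) 1, L1 p q μ V x0 η0 κ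

/-- RC-LOC2 -/
def S_loc2 : Prop := ∀ (n : ℕ) (p q : ℝ) (μ ν : Measure (E n)) (V C1 C2 γ : ℝ),
  Ctx p q μ ν V C1 C2 γ → ∀ (x0 : E n) (η0 κ : ℝ), 0 < η0 → κ ∈ Ioo (0 : ℝ) 1 →
  L1 p q μ V x0 η0 κ → ∃ c > (0 : ℝ), ∃ r2 > (0 : ℝ), L2 p q μ x0 c r2

/-- RC-LOC3 -/
def S_loc3 : Prop := ∀ (n : ℕ) (p q : ℝ) (μ ν : Measure (E n)) (V C1 C2 γ : ℝ),
  Ctx p q μ ν V C1 C2 γ → ∀ (x0 : E n) (c r2 : ℝ), 0 < c → 0 < r2 → L2 p q μ x0 c r2 →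
  L3 p q μ V x0

/-- RC-LOC4 -/
def S_loc4 : Prop := ∀ (n : ℕ) (p q : ℝ) (μ ν : Measure (E n)) (V C1 C2 γ : ℝ),
  Ctx p q μ ν V C1 C2 γ → ∀ (x0 : E n) (η0 κ : ℝ), 0 < η0 → κ ∈ Ioo (0 : ℝ) 1 →
  L1 p q μ V x0 η0 κ → L3 p q μ V x0 → L4 p q μ V x0 η0

/-- RC-LOC5 -/
def S_loc5 : Prop := ∀ (n : ℕ) (p q : ℝ) (μ ν : Measure (E n)) (V C1 C2 γ : ℝ),
  Ctx p q μ ν V C1 C2 γ → ∀ (x0 : E n) (η0 c r2 : ℝ), 0 < η0 → 0 < c → 0 < r2 →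
  L2 p q μ x0 c r2 → L4 p q μ V x0 η0 → ∃ r > (0 : ℝ), μ (Metric.ball x0 r) = 0

/-- RC-FIN1 -/
def S_fin1 : Prop := ∀ (n : ℕ) (p q : ℝ) (μ ν : Measure (E n)) (V C1 C2 γ : ℝ),
  Ctx p q μ ν V C1 C2 γ →
  (∀ x0 ∈ μ.support, ∫⁻ y, ke p x0 y ∂ν < ⊤ → V ≤ U p ν x0) →
  ∀ τ : Measure (E n), IsProbabilityMeasure τ → τ (μ.support)ᶜ = 0 → FinEn p τ τ →
    V ≤ En p τ τ

/-- RC-BR1 -/
def S_br1 : Prop := ∀ (n : ℕ) (p : ℝ), 0 ≤ p → ∀ K : Set (E n), IsCompact K → 0 < cap p K →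
  ∃ V : ℝ, (p ≠ 0 → 0 < V) ∧ 1 / cap p K = Phi p V ∧
    ∀ σ : Measure (E n), IsProbabilityMeasure σ → σ Kᶜ = 0 → FinEn p σ σ → V ≤ En p σ σ

/-- RC-BR2 -/
def S_br2 : Prop := ∀ (n : ℕ) (p : ℝ), 0 ≤ p → ∀ K : Set (E n), IsCompact K → ∀ v : ℝ,
  (p ≠ 0 → 0 < v) →
  (∀ σ : Measure (E n), IsProbabilityMeasure σ → σ Kᶜ = 0 → FinEn p σ σ → v ≤ En p σ σ) →
  (∃ σ : Measure (E n), IsProbabilityMeasure σ ∧ σ Kᶜ = 0 ∧ FinEn p σ σ) →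
  0 < cap p K ∧ cap p K ≤ 1 / Phi p v

/-- RC-BR3 -/
def S_br3 : Prop := ∀ (n : ℕ) (q : ℝ), 0 < q → ∀ K : Set (E n), IsCompact K →
  ∀ ρ : Measure (E n), IsProbabilityMeasure ρ → ρ Kᶜ = 0 → Iq q ρ < ⊤ →
  0 < (Iq q ρ).toReal ∧ 0 < cap q K ∧ (Iq q ρ).toReal ^ (-1 / q) ≤ cap q K

/-- RC-BR4 -/
def S_br4 : Prop := ∀ (n : ℕ) (q : ℝ), 0 < q → ∀ K : Set (E n), IsCompact K → 0 < cap q K →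
  ∃ ν : Measure (E n), IsProbabilityMeasure ν ∧ ν Kᶜ = 0 ∧ Iq q ν < ⊤ ∧
    0 < (Iq q ν).toReal ∧ cap q K = (Iq q ν).toReal ^ (-1 / q) ∧
    (∀ᵐ x ∂ν, Pot q ν x ≤ Iq q ν) ∧ (∀ x, Pot q ν x ≤ ENNReal.ofReal (2 ^ q) * Iq q ν)

/-- RC-JENS -/
def S_jens : Prop := ∀ (n : ℕ) (p q : ℝ), 0 ≤ p → p < q → ∀ ρ : Measure (E n),
  IsProbabilityMeasure ρ → BS ρ → BP q ρ → Phi p (En p ρ ρ) ≤ (Iq q ρ).toReal ^ (1 / q)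

/-- RC-MB -/
def S_MB : Prop := ∀ (n : ℕ) (p q : ℝ), 0 ≤ p → p < q → ∀ M : ℝ, 0 ≤ M →
  (∀ K : Set (E n), IsCompact K → 0 < cap p K → cap q K ≤ M * cap p K) → MB n p q M

/-- RC-BALL -/
def S_ball : Prop := ∀ (n : ℕ) (q : ℝ), 0 < q → q < n → ∃ ρ : Measure (E n),
  IsProbabilityMeasure ρ ∧ ρ (Metric.closedBall 0 1)ᶜ = 0 ∧ BP q ρ

end Pool.Agent.R284.RC
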